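import Pool.Agent.H27.L1.H34.GA.Targets1
import Pool.Agent.H27.L1.H34.GM.EG1

/-!
Rows TGD and RRA of the board ga: the convolution operators at infinity (helper74).
-/

set_option autoImplicit false

namespace Pool.Agent.H27.L1.H74.GA

open MeasureTheory Set Filter Topology
open Pool.Agent.H27.L1.H34.GM Pool.Agent.H27.L1.H34.GZ Pool.Agent.H27.L1.H34.GU Pool.Agent.H27.L1.H34.GA

theorem tg_bd {m : ℕ} {k : Mat m → ℂ} (h : Tg m k) : ∃ M : ℝ, 0 ≤ M ∧ ∀ z, ‖k z‖ ≤ M := by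
  obtain ⟨c, hc, hs⟩ := h.supp
  have h1 : ContinuousOn (fun z : V m => k (mt z)) (Metric.closedBall 0 c) :=
    (h.cont.comp th1_cmt).continuousOn
  obtain ⟨M, hM⟩ := (isCompact_closedBall (0 : V m) c).exists_bound_of_continuousOn h1
  refine ⟨max M 0, le_max_right _ _, fun z => ?_⟩
  by_cases hz : k z = 0
  · rw [hz, norm_zero]
    exact le_max_right _ _
  · have h2 : ((fun i j => z i j) : V m) ∈ Metric.closedBall (0 : V m) c := by
      rw [mem_closedBall_zero_iff]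
      exact (hs z hz).1
    exact (hM _ h2).trans (le_max_left _ _)

/-- the support of the integrand -/
theorem tg_sup {m : ℕ} (hm1 : 1 ≤ m) {k : Mat m → ℂ} (h : Tg m k) {r : ℝ} (hr : 0 < r) :
    ∃ c : ℝ, 0 < c ∧ ∀ z ∈ Shell m, k ((r⁻¹ * (aN (mt z))⁻¹) • mt z) ≠ 0 → z ∈ th1K m c := by
  obtain ⟨c, hc, hs⟩ := h.supp
  refine ⟨max 1 (r * Real.exp 1 * c), lt_of_lt_of_le one_pos (le_max_left _ _), ?_⟩
  intro z hz hne
  have haz : 0 < aN (mt z) := lt_of_lt_of_le one_pos hz.1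
  have h5 := (hs _ hne).1
  rw [th1_szsmul, abs_of_pos (by positivity)] at h5
  constructor
  · refine le_trans ?_ (le_max_right _ _)
    have h6 : sz (mt z) = r * aN (mt z) * (r⁻¹ * (aN (mt z))⁻¹ * sz (mt z)) := by
      field_simp
    rw [h6]
    have h7 : r * aN (mt z) ≤ r * Real.exp 1 :=
      mul_le_mul_of_nonneg_left hz.2.le (by positivity)
    exact mul_le_mul h7 h5 (mul_nonneg (by positivity) (norm_nonneg _)) (by positivity)
  · rw [← th1_aN_pow hm1]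
    exact (inv_le_one_of_one_le₀ (le_max_left _ _)).trans (one_le_pow₀ hz.1)

theorem det_nz {m : ℕ} {g z : Mat m} (hg : g.det ≠ 0) (hz : z.det ≠ 0) :
    (g * z⁻¹).det ≠ 0 := by
  rw [Matrix.det_mul, Matrix.det_nonsing_inv, Ring.inverse_eq_inv']
  exact mul_ne_zero hg (inv_ne_zero hz)

theorem cont_inv (m : ℕ) (g : Mat m) :
    ContinuousOn (fun z : V m => g * (mt z)⁻¹) {z | (mt z).det ≠ 0} := by
  intro z hz
  have h2 : ContinuousAt (fun z : Mat m => z⁻¹) (mt z) := by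
    apply continuousAt_matrix_inv
    rw [Ring.inverse_eq_inv']
    exact continuousAt_inv₀ hz
  have h3 : ContinuousAt (fun z : V m => (mt z)⁻¹) z :=
    ContinuousAt.comp (g := fun z : Mat m => z⁻¹) (f := fun z : V m => mt z) h2
      th1_cmt.continuousAt
  have h4 : Continuous (fun w : Mat m => g * w) := by fun_prop
  exact (h4.continuousAt.comp h3).continuousWithinAt

/-- the integrand is measurable -/
theorem rr_meas (hM : T_MSR) {m N : ℕ} (hm1 : 1 ≤ m) {k : Mat m → ℂ} (hk : Tg m k) (r : ℝ)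
    {F : Mat m → VN m N → ℂ} {x : VN m N} (hF : ContinuousOn (fun g => F g x) {g | g.det ≠ 0})
    {g : Mat m} (hg : g.det ≠ 0) :
    AEStronglyMeasurable (fun z : V m => k ((r⁻¹ * (aN (mt z))⁻¹) • mt z) * F (g * (mt z)⁻¹) x)
      ((hm m).restrict (Shell m)) := by
  obtain ⟨-, -, -, -, -, hSh, -, -⟩ := hM.1 m
  refine ((th1_meas hM hk.cont r⁻¹).aestronglyMeasurable).mul ?_
  have h1 : ContinuousOn (fun z : V m => F (g * (mt z)⁻¹) x) (Shell m) := by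
    refine ContinuousOn.comp (g := fun w : Mat m => F w x) (t := {g | g.det ≠ 0}) hF
      ((cont_inv m g).mono (fun z hz => th1_det_ne hm1 hz)) ?_
    intro z hz
    exact det_nz hg (th1_det_ne hm1 hz)
  exact h1.aestronglyMeasurable hSh

/-- the majorant -/
theorem rr_maj (hH : T_HAR) {m : ℕ} (hm1 : 1 ≤ m) {c : ℝ} (hc : 0 < c) (M : ℝ) :
    Integrable ((th1K m c).indicator fun _ => M) ((hm m).restrict (Shell m)) := by
  have hfin : hm m (th1K m c) < ⊤ := (hH m hm1).2.2.2 c hc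
  have hKm : MeasurableSet (th1K m c) := (th1K_compact m c).measurableSet
  have h1 : IntegrableOn (fun _ : V m => M) (th1K m c) (hm m) := integrableOn_const hfin.ne
  exact ((integrable_indicator_iff hKm).2 h1).mono_measure Measure.restrict_le_self

/-- the integrand is bounded -/
theorem rr_le (hM : T_MSR) {m N : ℕ} (hm1 : 1 ≤ m) {k : Mat m → ℂ} {M : ℝ} (hM0 : 0 ≤ M)
    (hMb : ∀ z, ‖k z‖ ≤ M) {r c : ℝ}
    (hs : ∀ z ∈ Shell m, k ((r⁻¹ * (aN (mt z))⁻¹) • mt z) ≠ 0 → z ∈ th1K m c)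
    {F : Mat m → VN m N → ℂ} {B : ℝ} (hB0 : 0 ≤ B) {x : VN m N}
    (hB : ∀ g : Mat m, g.det ≠ 0 → ‖F g x‖ ≤ B) {g : Mat m} (hg : g.det ≠ 0) :
    ∀ᵐ z ∂((hm m).restrict (Shell m)),
      ‖k ((r⁻¹ * (aN (mt z))⁻¹) • mt z) * F (g * (mt z)⁻¹) x‖ ≤
        (th1K m c).indicator (fun _ => M * B) z := by
  obtain ⟨-, -, -, -, -, hSh, -, -⟩ := hM.1 m
  refine (ae_restrict_iff' hSh).2 (Filter.Eventually.of_forall fun z hzS => ?_)
  by_cases h1 : k ((r⁻¹ * (aN (mt z))⁻¹) • mt z) = 0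
  · rw [h1, zero_mul, norm_zero]
    exact Set.indicator_nonneg (fun _ _ => mul_nonneg hM0 hB0) _
  · rw [Set.indicator_of_mem (hs z hzS h1), norm_mul]
    exact mul_le_mul (hMb _) (hB _ (det_nz hg (th1_det_ne hm1 hzS))) (norm_nonneg _) hM0

theorem rr_int (hM : T_MSR) (hH : T_HAR) {m N : ℕ} (hm1 : 1 ≤ m) {k : Mat m → ℂ} (hk : Tg m k)
    {r : ℝ} (hr : 0 < r) {F : Mat m → VN m N → ℂ} {x : VN m N}
    (hF : ContinuousOn (fun g => F g x) {g | g.det ≠ 0}) {B : ℝ}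
    (hB : ∀ g : Mat m, g.det ≠ 0 → ‖F g x‖ ≤ B) {g : Mat m} (hg : g.det ≠ 0) :
    IntegrableOn (fun z : V m => k ((r⁻¹ * (aN (mt z))⁻¹) • mt z) * F (g * (mt z)⁻¹) x)
      (Shell m) (hm m) := by
  obtain ⟨M, hM0, hMb⟩ := tg_bd hk
  obtain ⟨c, hc, hs⟩ := tg_sup hm1 hk hr
  have hB0 : 0 ≤ B := (norm_nonneg _).trans (hB g hg)
  exact Integrable.mono' (rr_maj hH hm1 hc (M * B)) (rr_meas hM hm1 hk r hF hg)
    (rr_le hM hm1 hM0 hMb hs hB0 hB hg)

theorem cR_det {m : ℕ} (α : ZM m) : (cR α).det = ((α.det : ℤ) : ℝ) := by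
  have h := (Int.castRingHom ℝ).map_det α
  exact h.symm

theorem pf_RRA : T_MSR → T_HAR → T_RRA := by
  intro hM hH m N _ T D hS F lam hF k hk
  have hm1 := hS.one_le
  obtain ⟨-, -, -, -, -, hSh, -, -⟩ := hM.1 m
  obtain ⟨M, hM0, hMb⟩ := tg_bd hk
  obtain ⟨c, hc, hs⟩ := tg_sup hm1 hk (one_pos : (0 : ℝ) < 1)
  obtain ⟨B, hB⟩ := hF.bdd
  have hBx : ∀ x, ∀ g : Mat m, g.det ≠ 0 → ‖F g x‖ ≤ max B 0 :=
    fun x g hg => (hB g x hg).trans (le_max_left _ _)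
  have hB0 : (0 : ℝ) ≤ max B 0 := le_max_right _ _
  constructor
  · -- continuity
    intro x
    show ContinuousOn (fun g => ∫ z in Shell m,
      k (((1 : ℝ)⁻¹ * (aN (mt z))⁻¹) • mt z) * F (g * (mt z)⁻¹) x ∂(hm m)) {g | g.det ≠ 0}
    have : FirstCountableTopology (Mat m) := inferInstanceAs (FirstCountableTopology (V m))
    refine continuousOn_of_dominated (bound := (th1K m c).indicator (fun _ => M * max B 0))
      (fun g hg => rr_meas hM hm1 hk 1 (hF.cont x) hg)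
      (fun g hg => rr_le hM hm1 hM0 hMb hs hB0 (hBx x) hg) (rr_maj hH hm1 hc _) ?_
    refine (ae_restrict_iff' hSh).2 (Filter.Eventually.of_forall fun z hz => ?_)
    have hd := th1_det_ne hm1 hz
    refine continuousOn_const.mul ?_
    refine ContinuousOn.comp (g := fun w : Mat m => F w x) (t := {g | g.det ≠ 0}) (hF.cont x)
      (Continuous.continuousOn (by fun_prop)) ?_
    intro g hg
    exact det_nz hg hd
  · intro g x hx
    show ∫ z in Shell m, k (((1 : ℝ)⁻¹ * (aN (mt z))⁻¹) • mt z) * F (g * (mt z)⁻¹) x ∂(hm m) = 0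
    simp only [hF.supp _ x hx, mul_zero, integral_zero]
  · intro γ hγ g x hg
    show ∫ z in Shell m, k (((1 : ℝ)⁻¹ * (aN (mt z))⁻¹) • mt z) *
        F (cR γ * g * (mt z)⁻¹) (ac N γ x) ∂(hm m) =
      ∫ z in Shell m, k (((1 : ℝ)⁻¹ * (aN (mt z))⁻¹) • mt z) * F (g * (mt z)⁻¹) x ∂(hm m)
    refine setIntegral_congr_fun hSh fun z hz => ?_
    show k (((1 : ℝ)⁻¹ * (aN (mt z))⁻¹) • mt z) * F (cR γ * g * (mt z)⁻¹) (ac N γ x) =
      k (((1 : ℝ)⁻¹ * (aN (mt z))⁻¹) • mt z) * F (g * (mt z)⁻¹) x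
    rw [Matrix.mul_assoc, hF.auto γ hγ _ x (det_nz hg (th1_det_ne hm1 hz))]
  · intro r hr g x hg
    show ∫ z in Shell m, k (((1 : ℝ)⁻¹ * (aN (mt z))⁻¹) • mt z) *
        F (r • g * (mt z)⁻¹) x ∂(hm m) =
      ∫ z in Shell m, k (((1 : ℝ)⁻¹ * (aN (mt z))⁻¹) • mt z) * F (g * (mt z)⁻¹) x ∂(hm m)
    refine setIntegral_congr_fun hSh fun z hz => ?_
    show k (((1 : ℝ)⁻¹ * (aN (mt z))⁻¹) • mt z) * F (r • g * (mt z)⁻¹) x =
      k (((1 : ℝ)⁻¹ * (aN (mt z))⁻¹) • mt z) * F (g * (mt z)⁻¹) x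
    rw [Matrix.smul_mul, hF.scal r hr _ x (det_nz hg (th1_det_ne hm1 hz))]
  · intro n hn g x hg
    show ∑ α ∈ T n, ∫ z in Shell m, k (((1 : ℝ)⁻¹ * (aN (mt z))⁻¹) • mt z) *
        F (cR α * g * (mt z)⁻¹) (ac N α x) ∂(hm m) =
      (n : ℂ) ^ (((m : ℂ) - 1) / 2) * lam n *
        ∫ z in Shell m, k (((1 : ℝ)⁻¹ * (aN (mt z))⁻¹) • mt z) * F (g * (mt z)⁻¹) x ∂(hm m)
    have hα : ∀ α ∈ T n, (cR α * g).det ≠ 0 := by
      intro α hα
      have h1 := hS.reps.mem n hn α hα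
      rw [Matrix.det_mul, cR_det]
      refine mul_ne_zero ?_ hg
      have h2 : α.det ≠ 0 := by
        intro h0
        rw [h0] at h1
        simp at h1
        omega
      exact_mod_cast h2
    rw [← integral_finsetSum _ (fun α hα' => rr_int hM hH hm1 hk one_pos (hF.cont _)
      (hBx _) (hα α hα')), ← integral_const_mul]
    refine setIntegral_congr_fun hSh fun z hz => ?_
    show ∑ α ∈ T n, k (((1 : ℝ)⁻¹ * (aN (mt z))⁻¹) • mt z) *
        F (cR α * g * (mt z)⁻¹) (ac N α x) =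
      (n : ℂ) ^ (((m : ℂ) - 1) / 2) * lam n *
        (k (((1 : ℝ)⁻¹ * (aN (mt z))⁻¹) • mt z) * F (g * (mt z)⁻¹) x)
    have h1 := hF.hecke n hn _ x (det_nz hg (th1_det_ne hm1 hz))
    rw [← Finset.mul_sum]
    have h2 : ∑ α ∈ T n, F (cR α * g * (mt z)⁻¹) (ac N α x) =
        ∑ α ∈ T n, F (cR α * (g * (mt z)⁻¹)) (ac N α x) :=
      Finset.sum_congr rfl (fun α _ => by rw [Matrix.mul_assoc])
    rw [h2, h1]
    ring
  · refine ⟨∫ z in Shell m, (th1K m c).indicator (fun _ => M * max B 0) z ∂(hm m),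
      fun g x hg => ?_⟩
    exact norm_integral_le_of_norm_le (rr_maj hH hm1 hc _)
      (rr_le hM hm1 hM0 hMb hs hB0 (hBx x) hg)

theorem pf_TGD : T_TGD := by
  intro m hm1 k r hk hr
  have hr0 : r⁻¹ ≠ 0 := inv_ne_zero hr.ne'
  refine ⟨⟨?_, ?_⟩, ?_⟩
  · exact hk.cont.comp (by fun_prop)
  · obtain ⟨c, hc, hs⟩ := hk.supp
    refine ⟨max (r * c) (r⁻¹ ^ m * c), lt_of_lt_of_le (by positivity) (le_max_left _ _), ?_⟩
    intro z hz
    obtain ⟨h1, h2⟩ := hs _ hz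
    rw [th1_szsmul, abs_of_pos (by positivity)] at h1
    rw [Matrix.det_smul, Fintype.card_fin, abs_mul, abs_pow, abs_of_pos (by positivity)] at h2
    constructor
    · refine le_trans ?_ (le_max_left _ _)
      have h3 : sz z = r * (r⁻¹ * sz z) := by field_simp
      rw [h3]
      exact mul_le_mul_of_nonneg_left h1 hr.le
    · have h4 : (max (r * c) (r⁻¹ ^ m * c))⁻¹ ≤ (r⁻¹ ^ m * c)⁻¹ :=
        inv_anti₀ (by positivity) (le_max_right _ _)
      refine h4.trans ?_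
      rw [mul_inv, inv_mul_le_iff₀ (by positivity)]
      exact h2
  · intro N _ F
    funext g x
    show ∫ z in Shell m, k (r⁻¹ • (((1 : ℝ)⁻¹ * (aN (mt z))⁻¹) • mt z)) *
        F (g * (mt z)⁻¹) x ∂(hm m) =
      ∫ z in Shell m, k ((r⁻¹ * (aN (mt z))⁻¹) • mt z) * F (g * (mt z)⁻¹) x ∂(hm m)
    refine integral_congr_ae (Filter.Eventually.of_forall fun z => ?_)
    show k (r⁻¹ • (((1 : ℝ)⁻¹ * (aN (mt z))⁻¹) • mt z)) * F (g * (mt z)⁻¹) x =
      k ((r⁻¹ * (aN (mt z))⁻¹) • mt z) * F (g * (mt z)⁻¹) x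
    rw [smul_smul, inv_one, one_mul]

end Pool.Agent.H27.L1.H74.GA
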