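import Pool.Agent.H27.L1.H91.GA.RRN
import Pool.Agent.H27.L1.H74.GA.RRA

/-!
Row APR of the board ga: approximation of a form by its convolution with a bump function (helper74).
-/

set_option autoImplicit false

namespace Pool.Agent.H27.L1.H74.GA

open MeasureTheory Set Filter Topology
open Pool.Agent.H27.L1.H34.GM Pool.Agent.H27.L1.H34.GZ Pool.Agent.H27.L1.H34.GU Pool.Agent.H27.L1.H34.GA
open Pool.Agent.H27.L1.H46.GU (fz fz_eq fz_meas dom_det)
open Pool.Agent.H27.L1.H91.GA (csw wa tr wa_meas tr_meas fz_tr)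
open scoped ENNReal

/-- the difference as an integral -/
theorem apr_eq (hM : T_MSR) (hH : T_HAR) {m N : ℕ} (hm1 : 1 ≤ m) {k : Mat m → ℂ} (hk : Tg m k)
    {c : ℂ} (hc : uu k (fun _ => 1) 1 = c) {F : Mat m → VN m N → ℂ} {x : VN m N}
    (hF : ContinuousOn (fun g => F g x) {g | g.det ≠ 0}) {B : ℝ}
    (hB : ∀ g : Mat m, g.det ≠ 0 → ‖F g x‖ ≤ B) {g : Mat m} (hg : g.det ≠ 0) :
    Rr k 1 F g x - c * F g x = ∫ v in Shell m, k (((1 : ℝ)⁻¹ * (aN (mt v))⁻¹) • mt v) *
      (F (g * (mt v)⁻¹) x - F g x) ∂(hm m) := by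
  have i1 := rr_int hM hH hm1 hk (one_pos : (0 : ℝ) < 1) hF hB hg
  have i2 : IntegrableOn (fun v : V m => k (((1 : ℝ)⁻¹ * (aN (mt v))⁻¹) • mt v) * F g x)
      (Shell m) (hm m) :=
    rr_int (N := N) (x := x) hM hH hm1 hk (one_pos : (0 : ℝ) < 1) (F := fun _ _ => F g x)
      continuousOn_const (B := ‖F g x‖) (fun _ _ => le_rfl) hg
  have h1 : c * F g x = ∫ v in Shell m, k (((1 : ℝ)⁻¹ * (aN (mt v))⁻¹) • mt v) * F g x
      ∂(hm m) := by
    rw [integral_mul_const, ← hc]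
    unfold uu
    simp only [mul_one]
  have h2 : Rr k 1 F g x = ∫ v in Shell m, k (((1 : ℝ)⁻¹ * (aN (mt v))⁻¹) • mt v) *
      F (g * (mt v)⁻¹) x ∂(hm m) := rfl
  rw [h1, h2, ← integral_sub i1 i2]
  refine integral_congr_ae (Filter.Eventually.of_forall fun v => ?_)
  show k (((1 : ℝ)⁻¹ * (aN (mt v))⁻¹) • mt v) * F (g * (mt v)⁻¹) x -
    k (((1 : ℝ)⁻¹ * (aN (mt v))⁻¹) • mt v) * F g x = _
  ring

/-- the pointwise bound -/
theorem apr_pt (hM : T_MSR) (hH : T_HAR) {m N : ℕ} (hm1 : 1 ≤ m) {k : Mat m → ℂ} (hk : Tg m k)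
    {c : ℂ} (hc : uu k (fun _ => 1) 1 = c) {F : Mat m → VN m N → ℂ}
    (hF : ∀ x, ContinuousOn (fun g => F g x) {g | g.det ≠ 0}) {B : ℝ}
    (hB : ∀ (g : Mat m) (x : VN m N), g.det ≠ 0 → ‖F g x‖ ≤ B) (x : VN m N) {z : V m}
    (hz : (mt z).det ≠ 0) : ENNReal.ofReal (‖Rr k 1 F (mt z) x - c * F (mt z) x‖ ^ 2) ≤
      (∫⁻ v in Shell m, wa k 1 v ∂(hm m)) * ∫⁻ v in Shell m, wa k 1 v *
        ENNReal.ofReal ‖fz F x (tr z v) - fz F x z‖ ^ 2 ∂(hm m) := by
  obtain ⟨-, -, -, -, -, hSh, -, -⟩ := hM.1 m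
  have hmz : Measurable fun v : V m => ENNReal.ofReal ‖fz F x (tr z v) - fz F x z‖ :=
    ENNReal.measurable_ofReal.comp (((fz_meas hM hF x).comp
      ((tr_meas hM m).comp (measurable_const.prodMk measurable_id))).sub measurable_const).norm
  have h2 : ENNReal.ofReal ‖Rr k 1 F (mt z) x - c * F (mt z) x‖ ≤ ∫⁻ v in Shell m, wa k 1 v *
      ENNReal.ofReal ‖fz F x (tr z v) - fz F x z‖ ∂(hm m) := by
    rw [apr_eq hM hH hm1 hk hc (hF x) (fun g hg => hB g x hg) hz, ofReal_norm]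
    refine (enorm_integral_le_lintegral_enorm _).trans (le_of_eq ?_)
    refine setLIntegral_congr_fun hSh fun v hv => ?_
    show ‖k (((1 : ℝ)⁻¹ * (aN (mt v))⁻¹) • mt v) * (F (mt z * (mt v)⁻¹) x - F (mt z) x)‖ₑ =
      wa k 1 v * ENNReal.ofReal ‖fz F x (tr z v) - fz F x z‖
    rw [fz_tr F x hz (th1_det_ne hm1 hv), fz_eq F x hz, enorm_mul, ofReal_norm, wa, ofReal_norm]
  rw [ENNReal.ofReal_pow (norm_nonneg _)]
  exact (pow_le_pow_left' h2 2).trans (csw _ (wa_meas hM hk 1) hmz)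

theorem pf_APR : T_BIA → T_TBA → T_MSR → T_HAR → T_VLM → T_APR := by
  intro hBI hTB hM hH hVL m χ hm1 hχ
  obtain ⟨C, hC1, hBI⟩ := hBI m χ hm1 hχ
  obtain ⟨_, _, _, _, _, hTB⟩ := hTB m χ hm1 hχ
  obtain ⟨CV, KV, hCV, hVL⟩ := hVL m hm1
  have hmp : (0 : ℝ) < m := by exact_mod_cast hm1
  have hm1' : (1 : ℝ) ≤ m := by exact_mod_cast hm1
  have hCp : 0 < C := by linarith
  refine ⟨(20 * m * C)⁻¹, by positivity, ?_⟩
  intro N _ T D hS F lam hF hnU P δ hLip hP hδ hδ2 hδP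
  obtain ⟨hTgS, hBz⟩ := hBI δ hδ hδ2
  have hk : Tg m (bi m χ δ) := hTgS.toTg
  obtain ⟨-, -, huu, hL1⟩ := hTB δ hδ hδ2
  have htb0 : 0 ≤ tb m χ δ := norm_nonneg _
  obtain ⟨B, hB⟩ := hF.bdd
  have hDm := hS.dom.meas
  have hDfin : hm m D ≠ ⊤ := ((hVL D hS.dom).1.trans_lt ENNReal.ofReal_lt_top).ne
  obtain ⟨-, -, -, -, hσ, hSh, -, -⟩ := hM.1 m
  have hL : ∫⁻ v in Shell m, wa (bi m χ δ) 1 v ∂(hm m) = ENNReal.ofReal (tb m χ δ) := hL1
  have ham := wa_meas hM hk 1
  -- constants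
  have hδc : δ ≤ (20 * m * C)⁻¹ := by nlinarith
  have hδP' : δ * P ≤ (20 * m * C)⁻¹ := by nlinarith
  have hCc : C * (20 * m * C)⁻¹ = (20 * (m : ℝ))⁻¹ := by field_simp
  -- measurability
  set G : VN m N → V m × V m → ℝ≥0∞ := fun x p =>
    ENNReal.ofReal ‖fz F x (tr p.1 p.2) - fz F x p.1‖ with hG
  have hGm : ∀ x, Measurable (G x) := fun x =>
    ENNReal.measurable_ofReal.comp (((fz_meas hM hF.cont x).comp (tr_meas hM m)).sub
      ((fz_meas hM hF.cont x).comp measurable_fst)).norm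
  have hW : ∀ x, Measurable fun p : V m × V m => wa (bi m χ δ) 1 p.2 * G x p ^ 2 := fun x =>
    (ham.comp measurable_snd).mul ((hGm x).pow_const 2)
  -- the translates
  have key : ∀ v ∈ Shell m, wa (bi m χ δ) 1 v * ∑ x, ∫⁻ z in D, G x (z, v) ^ 2 ∂(hm m) ≤
      wa (bi m χ δ) 1 v * ENNReal.ofReal (1 / 100) := by
    intro v hv
    have hd := th1_det_ne hm1 hv
    have hav : 0 < aN (mt v) := lt_of_lt_of_le one_pos hv.1
    by_cases h0 : bi m χ δ (((1 : ℝ)⁻¹ * (aN (mt v))⁻¹) • mt v) = 0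
    · have h1 : wa (bi m χ δ) 1 v = 0 := by
        unfold wa
        rw [h0, norm_zero, ENNReal.ofReal_zero]
      rw [h1, zero_mul, zero_mul]
    · refine mul_le_mul_right ?_ _
      set w : Mat m := ((1 : ℝ)⁻¹ * (aN (mt v))⁻¹) • mt v with hw
      obtain ⟨-, -, -, hsz⟩ := (hBz w).2.2.1 h0
      have hwi : w⁻¹ = aN (mt v) • (mt v)⁻¹ := by
        rw [hw, eg1_inv_smul (by positivity) hd]
        congr 1
        rw [inv_one, one_mul, inv_inv]
      have hs0 : 0 ≤ sz (w⁻¹ - 1) := norm_nonneg _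
      have hs1 : 2 * m * sz (w⁻¹ - 1) ≤ 1 := by
        have h1 : 2 * m * sz (w⁻¹ - 1) ≤ 2 * m * (C * (20 * m * C)⁻¹) := by
          refine mul_le_mul_of_nonneg_left (hsz.trans ?_) (by positivity)
          exact mul_le_mul_of_nonneg_left hδc hCp.le
        rw [hCc] at h1
        have h2 : 2 * m * (20 * (m : ℝ))⁻¹ = 1 / 10 := by field_simp; norm_num
        linarith
      have hs2 : P * sz (w⁻¹ - 1) ≤ 1 / 10 := by
        have h1 : P * sz (w⁻¹ - 1) ≤ P * (C * δ) := mul_le_mul_of_nonneg_left hsz hP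
        have h2 : P * (C * δ) ≤ C * (20 * m * C)⁻¹ := by
          have h3 := mul_le_mul_of_nonneg_left hδP' hCp.le
          linarith
        rw [hCc] at h2
        have h3 : (20 * (m : ℝ))⁻¹ ≤ 1 / 10 := by
          rw [inv_le_comm₀ (by positivity) (by norm_num)]
          norm_num
          linarith
        linarith
      have hl := hLip w⁻¹ hs1
      have hl2 : (P * sz (w⁻¹ - 1)) ^ 2 ≤ 1 / 100 := by
        have h1 : 0 ≤ P * sz (w⁻¹ - 1) := mul_nonneg hP hs0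
        nlinarith
      have hfzF : ∀ x, ∀ z ∈ D, ‖fz F x (tr z v) - fz F x z‖ =
          ‖F (mt z * w⁻¹) x - F (mt z) x‖ := by
        intro x z hz
        have hzd := dom_det hm1 hS.dom hz
        rw [fz_tr F x hzd hd, fz_eq F x hzd, hwi, Matrix.mul_smul,
          hF.scal _ hav _ x (det_nz hzd hd)]
      have hmeas : ∀ x, Measurable (fun z : V m => ‖fz F x (tr z v) - fz F x z‖ ^ 2) := fun x =>
        ((((fz_meas hM hF.cont x).comp ((tr_meas hM m).comp
          (measurable_id.prodMk measurable_const))).sub (fz_meas hM hF.cont x)).norm).pow_const 2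
      have hint : ∀ x, IntegrableOn (fun z : V m => ‖fz F x (tr z v) - fz F x z‖ ^ 2) D
          (hm m) := by
        intro x
        refine Measure.integrableOn_of_bounded (M := (B + B) ^ 2) hDfin
          (hmeas x).aestronglyMeasurable ?_
        refine (ae_restrict_iff' hDm).2 (Filter.Eventually.of_forall fun z hz => ?_)
        rw [Real.norm_of_nonneg (by positivity)]
        refine pow_le_pow_left₀ (norm_nonneg _) ?_ 2
        have hzd := dom_det hm1 hS.dom hz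
        rw [fz_tr F x hzd hd, fz_eq F x hzd]
        exact (norm_sub_le _ _).trans (add_le_add (hB _ x (det_nz hzd hd)) (hB _ x hzd))
      have h5 : ∀ x, ∫⁻ z in D, G x (z, v) ^ 2 ∂(hm m) =
          ENNReal.ofReal (∫ z in D, ‖F (mt z * w⁻¹) x - F (mt z) x‖ ^ 2 ∂(hm m)) := by
        intro x
        have e1 : ∫ z in D, ‖F (mt z * w⁻¹) x - F (mt z) x‖ ^ 2 ∂(hm m) =
            ∫ z in D, ‖fz F x (tr z v) - fz F x z‖ ^ 2 ∂(hm m) := by
          refine setIntegral_congr_fun hDm fun z hz => ?_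
          show ‖F (mt z * w⁻¹) x - F (mt z) x‖ ^ 2 = ‖fz F x (tr z v) - fz F x z‖ ^ 2
          rw [hfzF x z hz]
        rw [e1, ofReal_integral_eq_lintegral_ofReal (hint x)
          (Filter.Eventually.of_forall fun z => by positivity)]
        refine lintegral_congr fun z => ?_
        show ENNReal.ofReal ‖fz F x (tr z v) - fz F x z‖ ^ 2 = _
        rw [ENNReal.ofReal_pow (norm_nonneg _)]
      rw [Finset.sum_congr rfl fun x _ => h5 x, ← ENNReal.ofReal_sum_of_nonneg fun x _ =>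
        integral_nonneg fun z => by positivity]
      exact ENNReal.ofReal_le_ofReal (hl.trans hl2)
  calc ∑ x, ∫⁻ z in D, ENNReal.ofReal
        (‖Rr (bi m χ δ) 1 F (mt z) x - tb m χ δ * F (mt z) x‖ ^ 2) ∂(hm m)
      ≤ ∑ x, ∫⁻ z in D, ENNReal.ofReal (tb m χ δ) * ∫⁻ v in Shell m, wa (bi m χ δ) 1 v *
          G x (z, v) ^ 2 ∂(hm m) ∂(hm m) := by
        refine Finset.sum_le_sum fun x _ => setLIntegral_mono' hDm fun z hz => ?_
        rw [← hL]
        exact apr_pt hM hH hm1 hk huu hF.cont (fun g x hg => hB g x hg) x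
          (dom_det hm1 hS.dom hz)
    _ = ENNReal.ofReal (tb m χ δ) * ∑ x, ∫⁻ z in D, ∫⁻ v in Shell m, wa (bi m χ δ) 1 v *
          G x (z, v) ^ 2 ∂(hm m) ∂(hm m) := by
        rw [Finset.mul_sum]
        refine Finset.sum_congr rfl fun x _ => ?_
        exact lintegral_const_mul _ (Measurable.lintegral_prod_right' (hW x))
    _ = ENNReal.ofReal (tb m χ δ) * ∑ x, ∫⁻ v in Shell m, ∫⁻ z in D, wa (bi m χ δ) 1 v *
          G x (z, v) ^ 2 ∂(hm m) ∂(hm m) := by
        congr 1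
        refine Finset.sum_congr rfl fun x _ => ?_
        exact lintegral_lintegral_swap (hW x).aemeasurable
    _ = ENNReal.ofReal (tb m χ δ) * ∫⁻ v in Shell m, wa (bi m χ δ) 1 v *
          ∑ x, ∫⁻ z in D, G x (z, v) ^ 2 ∂(hm m) ∂(hm m) := by
        congr 1
        rw [← lintegral_finsetSum]
        · refine lintegral_congr fun v => ?_
          rw [Finset.mul_sum]
          refine Finset.sum_congr rfl fun x _ => ?_
          refine lintegral_const_mul _ ?_
          exact ((hGm x).comp (measurable_id.prodMk measurable_const)).pow_const 2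
        · intro x _
          exact Measurable.lintegral_prod_left' (hW x)
    _ ≤ ENNReal.ofReal (tb m χ δ) * ∫⁻ v in Shell m, wa (bi m χ δ) 1 v *
          ENNReal.ofReal (1 / 100) ∂(hm m) :=
        mul_le_mul_right (setLIntegral_mono' hSh key) _
    _ = ENNReal.ofReal ((tb m χ δ / 10) ^ 2) := by
        rw [lintegral_mul_const _ ham, hL, ← ENNReal.ofReal_mul htb0, ← ENNReal.ofReal_mul htb0]
        congr 1
        ring

end Pool.Agent.H27.L1.H74.GA
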